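import Pool.Agent.TH252.JCB.Main

/-!
# The counterexample, in the form of the frozen statement
-/

set_option autoImplicit false
set_option linter.unusedSectionVars false
open scoped CStarMatrix InnerProductSpace ComplexConjugate
open Finset

namespace Pool.Agent.TH252.JCB

/-- The three Hilbert spaces. -/
noncomputable def fam : Fam (lp (fun _ : IA => ℂ) 2) (lp (fun _ : IB => ℂ) 2)
    (lp (fun _ : IH => ℂ) 2) where
  A := (default : HilbertBasis IA ℂ (lp (fun _ : IA => ℂ) 2))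
  B := (default : HilbertBasis IB ℂ (lp (fun _ : IB => ℂ) 2))
  C := (default : HilbertBasis IH ℂ (lp (fun _ : IH => ℂ) 2))
  hA := HilbertBasis.orthonormal _
  hB := HilbertBasis.orthonormal _
  hC := HilbertBasis.orthonormal _

section

variable {G : Type*} [NormedAddCommGroup G] [InnerProductSpace ℂ G] [CompleteSpace G]

/-- The bound for the adjoint matrix. -/
lemma sum_le_adjoint {n : ℕ} (a : CStarMatrix (Fin n) (Fin n) (G →L[ℂ] G)) (x : Fin n → G) :
    ∑ i, ‖∑ j, (ContinuousLinearMap.adjoint (a j i)) (x j)‖ ^ 2 ≤ ‖a‖ ^ 2 * ∑ j, ‖x j‖ ^ 2 := by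
  have h := sum_le (star a) x
  have h2 : ‖star a‖ = ‖a‖ := norm_star a
  rw [h2] at h
  simpa only [CStarMatrix.star_apply, ContinuousLinearMap.star_eq_adjoint] using h

end

section

variable {G₁ G₂ H : Type*} [NormedAddCommGroup G₁] [InnerProductSpace ℂ G₁] [CompleteSpace G₁]
  [NormedAddCommGroup G₂] [InnerProductSpace ℂ G₂] [CompleteSpace G₂]
  [NormedAddCommGroup H] [InnerProductSpace ℂ H] [CompleteSpace H]

/-- The map is jointly completely bounded, in the form of the frozen statement. -/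
theorem Fam.jcb (F : Fam G₁ G₂ H) (n m : ℕ) (a : CStarMatrix (Fin n) (Fin n) (G₁ →L[ℂ] G₁))
    (b : CStarMatrix (Fin m) (Fin m) (G₂ →L[ℂ] G₂)) (x : Fin n × Fin m → H) :
    ∑ p : Fin n × Fin m, ‖∑ q : Fin n × Fin m, F.phi (a p.1 q.1) (b p.2 q.2) (x q)‖ ^ 2
      ≤ (2 * ‖a‖ * ‖b‖) ^ 2 * ∑ q : Fin n × Fin m, ‖x q‖ ^ 2 :=
  F.phi_jcb (fun i j => a i j) (fun i j => b i j) ‖a‖ ‖b‖ (norm_nonneg _) (norm_nonneg _)
    (sum_le_adjoint a) (sum_le_adjoint b) x

end

end Pool.Agent.TH252.JCB
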