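import Mathlib

/-!
# Operator matrices and the C*-norm of `CStarMatrix`

For a Hilbert space `G`, the C*-norm of a matrix over the C*-algebra `B(G)` is the norm of the matrix
as an operator on `G ⊕ ... ⊕ G`.
-/

set_option autoImplicit false
set_option linter.unusedSectionVars false
open scoped CStarMatrix InnerProductSpace
open Finset

namespace Pool.Agent.TH252.JCB

variable {G : Type*} [NormedAddCommGroup G] [InnerProductSpace ℂ G] [CompleteSpace G]

/-- The operator on `G^n` given by a matrix of operators. -/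
noncomputable def act {n : ℕ} (a : Fin n → Fin n → (G →L[ℂ] G)) :
    PiLp 2 (fun _ : Fin n => G) →L[ℂ] PiLp 2 (fun _ : Fin n => G) :=
  ((PiLp.continuousLinearEquiv 2 ℂ (fun _ : Fin n => G)).symm :
      (∀ _ : Fin n, G) →L[ℂ] PiLp 2 (fun _ : Fin n => G)).comp
    ((ContinuousLinearMap.pi fun i => ∑ j, (a i j).comp (ContinuousLinearMap.proj j)).comp
      ((PiLp.continuousLinearEquiv 2 ℂ (fun _ : Fin n => G)) :
        PiLp 2 (fun _ : Fin n => G) →L[ℂ] (∀ _ : Fin n, G)))

lemma act_apply {n : ℕ} (a : Fin n → Fin n → (G →L[ℂ] G)) (x : PiLp 2 (fun _ : Fin n => G))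
    (i : Fin n) : act a x i = ∑ j, a i j (x j) := by
  simp [act]

/-- The action of matrices as a *-homomorphism. -/
noncomputable def actHom (n : ℕ) : CStarMatrix (Fin n) (Fin n) (G →L[ℂ] G) →⋆ₙₐ[ℂ]
    (PiLp 2 (fun _ : Fin n => G) →L[ℂ] PiLp 2 (fun _ : Fin n => G)) where
  toFun a := act fun i j => a i j
  map_smul' c a := by
    ext x i
    simp [act_apply, Finset.smul_sum]
  map_zero' := by
    ext x i
    simp [act_apply]
  map_add' a b := by
    ext x i
    simp [act_apply, Finset.sum_add_distrib]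
  map_mul' a b := by
    ext x i
    change act (fun i j => (a * b) i j) x i = act (fun i j => a i j) (act (fun i j => b i j) x) i
    simp only [act_apply, CStarMatrix.mul_apply, _root_.sum_apply, map_sum]
    rw [Finset.sum_comm]
    rfl
  map_star' a := by
    rw [ContinuousLinearMap.star_eq_adjoint]
    rw [ContinuousLinearMap.eq_adjoint_iff]
    intro x y
    simp only [PiLp.inner_apply, act_apply, CStarMatrix.star_apply, sum_inner, inner_sum]
    rw [Finset.sum_comm]
    refine Finset.sum_congr rfl fun i _ => Finset.sum_congr rfl fun j _ => ?_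
    rw [ContinuousLinearMap.star_eq_adjoint, ContinuousLinearMap.adjoint_inner_left]

lemma actHom_injective (n : ℕ) : Function.Injective (actHom (G := G) n) := by
  rw [injective_iff_map_eq_zero]
  intro a ha
  ext i j
  have h : act (fun i j => a i j) =
    (0 : PiLp 2 (fun _ : Fin n => G) →L[ℂ] PiLp 2 (fun _ : Fin n => G)) := ha
  have key : ∀ v : G, a i j v = 0 := by
    intro v
    have h1 : act (fun i j => a i j) (WithLp.toLp 2 (fun k => if k = j then v else 0)) i = 0 := by
      rw [h]
      simp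
    rw [act_apply] at h1
    rw [Finset.sum_eq_single j] at h1
    · simpa using h1
    · intro k _ hk
      simp [hk]
    · simp
  have h2 : a i j = (0 : G →L[ℂ] G) := ContinuousLinearMap.ext key
  rw [h2]
  rfl

lemma norm_act {n : ℕ} (a : CStarMatrix (Fin n) (Fin n) (G →L[ℂ] G)) :
    ‖act (fun i j => a i j)‖ = ‖a‖ :=
  NonUnitalStarAlgHom.norm_map (actHom (G := G) n) (actHom_injective n) a

/-- The basic inequality for matrices of operators. -/
lemma sum_le {n : ℕ} (a : CStarMatrix (Fin n) (Fin n) (G →L[ℂ] G)) (x : Fin n → G) :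
    ∑ i, ‖∑ j, a i j (x j)‖ ^ 2 ≤ ‖a‖ ^ 2 * ∑ j, ‖x j‖ ^ 2 := by
  have h := (act (fun i j => a i j)).le_opNorm (WithLp.toLp 2 x)
  rw [norm_act] at h
  have h2 := pow_le_pow_left₀ (norm_nonneg _) h 2
  rw [mul_pow, PiLp.norm_sq_eq_of_L2, PiLp.norm_sq_eq_of_L2] at h2
  simpa [act_apply] using h2

/-- A matrix of operators which acts as a contraction has norm at most one. -/
lemma norm_le_one {n : ℕ} (a : CStarMatrix (Fin n) (Fin n) (G →L[ℂ] G))
    (h : ∀ x : Fin n → G, ∑ i, ‖∑ j, a i j (x j)‖ ^ 2 ≤ ∑ j, ‖x j‖ ^ 2) : ‖a‖ ≤ 1 := by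
  rw [← norm_act]
  refine ContinuousLinearMap.opNorm_le_bound _ zero_le_one fun x => ?_
  rw [one_mul]
  refine le_of_sq_le_sq ?_ (norm_nonneg _)
  rw [PiLp.norm_sq_eq_of_L2, PiLp.norm_sq_eq_of_L2]
  simpa [act_apply] using h x

end Pool.Agent.TH252.JCB
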