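import Mathlib

/-!
# The averaging estimate

Families of operators `A k i` and `B k Q` (with `Q` a word of length `s` over `n` letters) which
commute, and whose adjoint families are column contractions. The vectors
`∑ k, A k (P k) (B k (P with the k-th letter replaced by zero) y)` have square sum over the words
`P` at most `(s + s * s / n) * n ^ s`.
-/

set_option autoImplicit false
set_option linter.unusedSectionVars false
open scoped InnerProductSpace
open Finset

namespace Pool.Agent.TH252.JCB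

variable {s n : ℕ} [NeZero n]

/-- Replace the letter at `k` by zero. -/
def cut (k : Fin s) (P : Fin s → Fin n) : Fin s → Fin n := Function.update P k 0

/-- Averaging over the letter at `l`. -/
lemma sum_update {E : Type*} [AddCommMonoid E] (l : Fin s) (f : (Fin s → Fin n) → E) :
    ∑ P : Fin s → Fin n, ∑ j : Fin n, f (Function.update P l j) = n • ∑ P, f P := by
  have hinv : Function.Involutive
      (fun t : (Fin s → Fin n) × Fin n => (Function.update t.1 l t.2, t.1 l)) := by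
    rintro ⟨P, j⟩
    simp
  have h1 : ∑ P : Fin s → Fin n, ∑ j : Fin n, f (Function.update P l j)
      = ∑ t : (Fin s → Fin n) × Fin n, f (hinv.toPerm _ t).1 := by
    rw [Fintype.sum_prod_type]
    rfl
  rw [h1, Equiv.sum_comp (hinv.toPerm _) (fun t : (Fin s → Fin n) × Fin n => f t.1),
    Fintype.sum_prod_type]
  simp [Finset.sum_const, Finset.smul_sum]

variable {V : Type*} [NormedAddCommGroup V] [InnerProductSpace ℂ V]

/-- The data used in the estimate. -/
structure Data (s n : ℕ) (V : Type*) [NormedAddCommGroup V] [InnerProductSpace ℂ V] where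
  A : Fin s → Fin n → V → V
  A' : Fin s → Fin n → V → V
  B : Fin s → (Fin s → Fin n) → V → V
  B' : Fin s → (Fin s → Fin n) → V → V
  α : ℝ
  β : ℝ
  α_nonneg : 0 ≤ α
  β_nonneg : 0 ≤ β
  adjA : ∀ k i u v, ⟪A' k i u, v⟫_ℂ = ⟪u, A k i v⟫_ℂ
  adjB : ∀ k Q u v, ⟪B' k Q u, v⟫_ℂ = ⟪u, B k Q v⟫_ℂ
  comm : ∀ k i l Q v, A k i (B l Q v) = B l Q (A k i v)
  comm' : ∀ k i l Q v, A' k i (B l Q v) = B l Q (A' k i v)
  hA : ∀ k v, ∑ i, ‖A' k i v‖ ^ 2 ≤ (α * ‖v‖) ^ 2
  hB : ∀ k v, ∑ Q, ‖B' k Q v‖ ^ 2 ≤ (β * ‖v‖) ^ 2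

namespace Data

variable (D : Data s n V)

lemma norm_A'_le (k : Fin s) (i : Fin n) (v : V) : ‖D.A' k i v‖ ≤ D.α * ‖v‖ := by
  refine le_of_sq_le_sq ?_ (mul_nonneg D.α_nonneg (norm_nonneg _))
  refine le_trans ?_ (D.hA k v)
  exact Finset.single_le_sum (f := fun i => ‖D.A' k i v‖ ^ 2) (fun i _ => sq_nonneg _)
    (Finset.mem_univ i)

lemma norm_B'_le (k : Fin s) (Q : Fin s → Fin n) (v : V) : ‖D.B' k Q v‖ ≤ D.β * ‖v‖ := by
  refine le_of_sq_le_sq ?_ (mul_nonneg D.β_nonneg (norm_nonneg _))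
  refine le_trans ?_ (D.hB k v)
  exact Finset.single_le_sum (f := fun i => ‖D.B' k i v‖ ^ 2) (fun i _ => sq_nonneg _)
    (Finset.mem_univ Q)

lemma norm_A_le (k : Fin s) (i : Fin n) (v : V) : ‖D.A k i v‖ ≤ D.α * ‖v‖ := by
  by_cases h0 : ‖D.A k i v‖ = 0
  · rw [h0]
    exact mul_nonneg D.α_nonneg (norm_nonneg _)
  have hpos : 0 < ‖D.A k i v‖ := lt_of_le_of_ne (norm_nonneg _) (Ne.symm h0)
  have h1 : ‖D.A k i v‖ * ‖D.A k i v‖ ≤ (D.α * ‖D.A k i v‖) * ‖v‖ := by
    have h2 : ‖D.A k i v‖ * ‖D.A k i v‖ = ‖⟪D.A k i v, D.A k i v⟫_ℂ‖ := by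
      rw [← inner_self_re_eq_norm, inner_self_eq_norm_mul_norm]
    rw [h2, ← D.adjA]
    refine (norm_inner_le_norm _ _).trans ?_
    exact mul_le_mul_of_nonneg_right (D.norm_A'_le k i _) (norm_nonneg _)
  nlinarith

lemma norm_B_le (k : Fin s) (Q : Fin s → Fin n) (v : V) : ‖D.B k Q v‖ ≤ D.β * ‖v‖ := by
  by_cases h0 : ‖D.B k Q v‖ = 0
  · rw [h0]
    exact mul_nonneg D.β_nonneg (norm_nonneg _)
  have hpos : 0 < ‖D.B k Q v‖ := lt_of_le_of_ne (norm_nonneg _) (Ne.symm h0)
  have h1 : ‖D.B k Q v‖ * ‖D.B k Q v‖ ≤ (D.β * ‖D.B k Q v‖) * ‖v‖ := by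
    have h2 : ‖D.B k Q v‖ * ‖D.B k Q v‖ = ‖⟪D.B k Q v, D.B k Q v⟫_ℂ‖ := by
      rw [← inner_self_re_eq_norm, inner_self_eq_norm_mul_norm]
    rw [h2, ← D.adjB]
    refine (norm_inner_le_norm _ _).trans ?_
    exact mul_le_mul_of_nonneg_right (D.norm_B'_le k Q _) (norm_nonneg _)
  nlinarith

/-- The inner sum of an off-diagonal term over one letter. -/
lemma offdiag {k l : Fin s} (hkl : k ≠ l) (P : Fin s → Fin n) (y : V) :
    ‖∑ j, ⟪D.A k (Function.update P l j k) (D.B k (cut k (Function.update P l j)) y),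
      D.A l (Function.update P l j l) (D.B l (cut l (Function.update P l j)) y)⟫_ℂ‖
      ≤ (D.α * D.β * ‖y‖) ^ 2 := by
  set y' : V := D.A k (P k) y with hy'
  set y'' : V := D.B l (cut l P) y with hy''
  have hterm : ∀ j, ⟪D.A k (Function.update P l j k) (D.B k (cut k (Function.update P l j)) y),
      D.A l (Function.update P l j l) (D.B l (cut l (Function.update P l j)) y)⟫_ℂ
      = ⟪D.A' l j y', D.B' k (cut k (Function.update P l j)) y''⟫_ℂ := by
    intro j
    have e1 : Function.update P l j k = P k := Function.update_of_ne hkl _ _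
    have e2 : Function.update P l j l = j := Function.update_self _ _ _
    have e3 : cut l (Function.update P l j) = cut l P := by
      unfold cut
      rw [Function.update_idem]
    rw [e1, e2, e3, D.comm, ← hy', ← hy'', ← D.adjA, D.comm', ← inner_conj_symm, ← D.adjB,
      inner_conj_symm]
  rw [Finset.sum_congr rfl fun j _ => hterm j]
  have hinj : Function.Injective fun j => cut k (Function.update P l j) := by
    intro i j hij
    have := congrFun hij l
    simpa [cut, Function.update_of_ne hkl.symm] using this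
  have hBle : ∑ j, ‖D.B' k (cut k (Function.update P l j)) y''‖ ^ 2 ≤ (D.β * ‖y''‖) ^ 2 := by
    refine le_trans ?_ (D.hB k y'')
    rw [← Finset.sum_image (s := Finset.univ) (g := fun j => cut k (Function.update P l j))
      (f := fun Q => ‖D.B' k Q y''‖ ^ 2) (fun i _ j _ h => hinj h)]
    exact Finset.sum_le_sum_of_subset_of_nonneg (Finset.subset_univ _)
      (fun _ _ _ => sq_nonneg _)
  calc ‖∑ j, ⟪D.A' l j y', D.B' k (cut k (Function.update P l j)) y''⟫_ℂ‖
      ≤ ∑ j, ‖D.A' l j y'‖ * ‖D.B' k (cut k (Function.update P l j)) y''‖ := by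
        refine (norm_sum_le _ _).trans (Finset.sum_le_sum fun j _ => norm_inner_le_norm _ _)
    _ ≤ √(∑ j, ‖D.A' l j y'‖ ^ 2) * √(∑ j, ‖D.B' k (cut k (Function.update P l j)) y''‖ ^ 2) :=
        Real.sum_mul_le_sqrt_mul_sqrt _ _ _
    _ ≤ (D.α * ‖y'‖) * (D.β * ‖y''‖) := by
        refine mul_le_mul ?_ ?_ (Real.sqrt_nonneg _) (mul_nonneg D.α_nonneg (norm_nonneg _))
        · exact Real.sqrt_le_iff.mpr ⟨mul_nonneg D.α_nonneg (norm_nonneg _), D.hA l y'⟩
        · exact Real.sqrt_le_iff.mpr ⟨mul_nonneg D.β_nonneg (norm_nonneg _), hBle⟩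
    _ ≤ (D.α * (D.α * ‖y‖)) * (D.β * (D.β * ‖y‖)) := by
        refine mul_le_mul (mul_le_mul_of_nonneg_left (D.norm_A_le _ _ _) D.α_nonneg)
          (mul_le_mul_of_nonneg_left (D.norm_B_le _ _ _) D.β_nonneg)
          (mul_nonneg D.β_nonneg (norm_nonneg _))
          (mul_nonneg D.α_nonneg (mul_nonneg D.α_nonneg (norm_nonneg _)))
    _ = (D.α * D.β * ‖y‖) ^ 2 := by ring

/-- The averaging estimate. -/
theorem core (hsn : s ≤ n) (y : V) :
    ∑ P : Fin s → Fin n, ‖∑ k, D.A k (P k) (D.B k (cut k P) y)‖ ^ 2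
      ≤ (2 * s * n ^ s : ℝ) * (D.α * D.β * ‖y‖) ^ 2 := by
  set z : (Fin s → Fin n) → Fin s → V := fun P k => D.A k (P k) (D.B k (cut k P) y) with hz
  set c : ℝ := (D.α * D.β * ‖y‖) ^ 2 with hc
  have hc0 : 0 ≤ c := sq_nonneg _
  have hn : (0 : ℝ) < n := by exact_mod_cast Nat.pos_of_ne_zero (NeZero.ne n)
  have hexp : ∀ P, ‖∑ k, z P k‖ ^ 2 = (∑ k, ∑ l, ⟪z P k, z P l⟫_ℂ).re := by
    intro P
    rw [← inner_self_eq_norm_sq (𝕜 := ℂ), sum_inner]
    simp_rw [inner_sum]
    rfl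
  have hdiag : ∀ k, (∑ P, ⟪z P k, z P k⟫_ℂ).re ≤ n ^ s * c := by
    intro k
    rw [Complex.re_sum]
    calc ∑ P, (⟪z P k, z P k⟫_ℂ).re ≤ ∑ _P : Fin s → Fin n, c := by
          refine Finset.sum_le_sum fun P _ => ?_
          have h1 : (⟪z P k, z P k⟫_ℂ).re = ‖z P k‖ ^ 2 := inner_self_eq_norm_sq (𝕜 := ℂ) _
          rw [h1, hc]
          refine pow_le_pow_left₀ (norm_nonneg _) ?_ 2
          refine (D.norm_A_le _ _ _).trans ?_
          rw [mul_assoc]
          exact mul_le_mul_of_nonneg_left (D.norm_B_le _ _ _) D.α_nonneg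
      _ = n ^ s * c := by simp
  have hoff : ∀ k l, k ≠ l → (∑ P, ⟪z P k, z P l⟫_ℂ).re ≤ n ^ s / n * c := by
    intro k l hkl
    have h1 : ‖(n : ℂ) * ∑ P, ⟪z P k, z P l⟫_ℂ‖ ≤ n ^ s * c := by
      rw [← nsmul_eq_mul, ← sum_update l (fun P => ⟪z P k, z P l⟫_ℂ)]
      refine (norm_sum_le _ _).trans ?_
      calc ∑ P, ‖∑ j, ⟪z (Function.update P l j) k, z (Function.update P l j) l⟫_ℂ‖
          ≤ ∑ _P : Fin s → Fin n, c := Finset.sum_le_sum fun P _ => D.offdiag hkl P y
        _ = n ^ s * c := by simp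
    rw [norm_mul, Complex.norm_natCast] at h1
    refine (Complex.re_le_norm _).trans ?_
    rw [div_mul_eq_mul_div, le_div_iff₀ hn, mul_comm]
    exact h1
  calc ∑ P, ‖∑ k, z P k‖ ^ 2 = ∑ k, ∑ l, (∑ P, ⟪z P k, z P l⟫_ℂ).re := by
        simp_rw [hexp]
        rw [← Complex.re_sum, Finset.sum_comm, Complex.re_sum]
        refine Finset.sum_congr rfl fun k _ => ?_
        rw [Finset.sum_comm, Complex.re_sum]
    _ ≤ ∑ k : Fin s, ∑ l : Fin s, ((if k = l then n ^ s * c else 0) + n ^ s / n * c) := by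
        refine Finset.sum_le_sum fun k _ => Finset.sum_le_sum fun l _ => ?_
        have hpos : 0 ≤ (n : ℝ) ^ s / n * c := by positivity
        by_cases hkl : k = l
        · subst hkl
          simp only [if_true]
          linarith [hdiag k]
        · simp only [hkl, if_false, zero_add]
          exact hoff k l hkl
    _ = s * (n ^ s * c) + s * (s * (n ^ s / n * c)) := by
        simp [Finset.sum_add_distrib]
    _ ≤ s * (n ^ s * c) + s * (n * (n ^ s / n * c)) := by
        have hsn' : (s : ℝ) ≤ n := by exact_mod_cast hsn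
        have hpos : 0 ≤ (n : ℝ) ^ s / n * c := by positivity
        gcongr
    _ = (2 * s * n ^ s : ℝ) * c := by
        field_simp
        ring

end Data

end Pool.Agent.TH252.JCB
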