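import Pool.Agent.TH252.JCB.Rank

/-!
# The single bilinear map
-/

set_option autoImplicit false
set_option linter.unusedSectionVars false
open scoped CStarMatrix InnerProductSpace ComplexConjugate
open Finset

namespace Pool.Agent.TH252.JCB

/-- Number of splittings (and number of letters) at level `r`. -/
abbrev sz (r : ℕ) : ℕ := 16 ^ r

/-- Indices for the first space. -/
abbrev IA : Type := Σ r : ℕ, Fin (sz r) × Fin (sz r)
/-- Indices for the second space. -/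
abbrev IB : Type := Σ r : ℕ, Fin (sz r) × (Fin (sz r) → Fin (sz r))
/-- Indices for the third space. -/
abbrev IH : Type := Σ r : ℕ, (Fin (sz r) → Fin (sz r))

variable {G₁ G₂ G H : Type*} [NormedAddCommGroup G₁] [InnerProductSpace ℂ G₁] [CompleteSpace G₁]
  [NormedAddCommGroup G₂] [InnerProductSpace ℂ G₂] [CompleteSpace G₂]
  [NormedAddCommGroup G] [InnerProductSpace ℂ G] [CompleteSpace G]
  [NormedAddCommGroup H] [InnerProductSpace ℂ H] [CompleteSpace H]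

variable (G₁ G₂ H) in
/-- Orthonormal families in three Hilbert spaces. -/
structure Fam where
  A : IA → G₁
  B : IB → G₂
  C : IH → H
  hA : Orthonormal ℂ A
  hB : Orthonormal ℂ B
  hC : Orthonormal ℂ C

namespace Fam

variable (F : Fam G₁ G₂ H)

/-- The family at level `r`, first space. -/
def eA (r : ℕ) (t : Fin (sz r) × Fin (sz r)) : G₁ := F.A ⟨r, t⟩
/-- The family at level `r`, second space. -/
def eB (r : ℕ) (t : Fin (sz r) × (Fin (sz r) → Fin (sz r))) : G₂ := F.B ⟨r, t⟩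
/-- The family at level `r`, third space. -/
def eH (r : ℕ) (t : Fin (sz r) → Fin (sz r)) : H := F.C ⟨r, t⟩

lemma eA_on (r : ℕ) : Orthonormal ℂ (F.eA r) :=
  F.hA.comp (fun t => (⟨r, t⟩ : IA)) (fun _ _ h => by simpa using h)
lemma eB_on (r : ℕ) : Orthonormal ℂ (F.eB r) :=
  F.hB.comp (fun t => (⟨r, t⟩ : IB)) (fun _ _ h => by simpa using h)
lemma eH_on (r : ℕ) : Orthonormal ℂ (F.eH r) :=
  F.hC.comp (fun t => (⟨r, t⟩ : IH)) (fun _ _ h => by simpa using h)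

lemma eA_orth {r r' : ℕ} (h : r ≠ r') (t : Fin (sz r) × Fin (sz r))
    (t' : Fin (sz r') × Fin (sz r')) : ⟪F.eA r t, F.eA r' t'⟫_ℂ = 0 := by
  refine F.hA.2 ?_
  intro h'
  exact h (congrArg Sigma.fst h')

/-- The unit vector used in all the maps. -/
def uu : H := F.eH 0 0

lemma norm_uu : ‖F.uu‖ = 1 := (F.eH_on 0).1 0

/-- The map at level `r`. -/
noncomputable def Lev (r : ℕ) : (G₁ →L[ℂ] G₁) →L[ℂ] (G₂ →L[ℂ] G₂) →L[ℂ] (H →L[ℂ] H) :=
  Phi (F.eA r) (F.eB r) (F.eH r) F.uu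

end Fam

/-- The norming constant at level `r`, before scaling. -/
noncomputable def K (r : ℕ) : ℝ := 2 * sz r * (sz r : ℝ) ^ (sz r)

lemma K_pos (r : ℕ) : 0 < K r := by
  unfold K sz
  positivity

/-- The weight at level `r`. -/
noncomputable def wt (r : ℕ) : ℝ := (1 / 2) ^ r / √(K r)

lemma wt_nonneg (r : ℕ) : 0 ≤ wt r := by
  unfold wt
  positivity

lemma wt_sq (r : ℕ) : wt r ^ 2 * K r = ((1 / 2) ^ r) ^ 2 := by
  unfold wt
  rw [div_pow, Real.sq_sqrt (K_pos r).le, div_mul_cancel₀ _ (K_pos r).ne']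

namespace Fam

variable (F : Fam G₁ G₂ H)

/-- The scaled map at level `r`. -/
noncomputable def SLev (r : ℕ) : (G₁ →L[ℂ] G₁) →L[ℂ] (G₂ →L[ℂ] G₂) →L[ℂ] (H →L[ℂ] H) :=
  (wt r : ℂ) • F.Lev r

lemma SLev_apply (r : ℕ) (a : G₁ →L[ℂ] G₁) (b : G₂ →L[ℂ] G₂) (x : H) :
    F.SLev r a b x = (wt r : ℂ) • Phi (F.eA r) (F.eB r) (F.eH r) F.uu a b x := rfl

lemma SLev_jcb (r : ℕ) {p q : Type} [Fintype p] [Fintype q]
    (a : p → p → (G₁ →L[ℂ] G₁)) (b : q → q → (G₂ →L[ℂ] G₂)) (α β : ℝ) (hα : 0 ≤ α) (hβ : 0 ≤ β)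
    (ha : ∀ x : p → G₁, ∑ i, ‖∑ j, (ContinuousLinearMap.adjoint (a j i)) (x j)‖ ^ 2
      ≤ α ^ 2 * ∑ j, ‖x j‖ ^ 2)
    (hb : ∀ x : q → G₂, ∑ i, ‖∑ j, (ContinuousLinearMap.adjoint (b j i)) (x j)‖ ^ 2
      ≤ β ^ 2 * ∑ j, ‖x j‖ ^ 2) (x : p × q → H) :
    ∑ t : p × q, ‖∑ t' : p × q, F.SLev r (a t.1 t'.1) (b t.2 t'.2) (x t')‖ ^ 2
      ≤ ((1 / 2) ^ r) ^ 2 * ((α * β) ^ 2 * ∑ t, ‖x t‖ ^ 2) := by
  have h := Phi_jcb (le_refl (sz r)) (F.eA r) (F.eB r) (F.eH r) F.uu (F.eA_on r) (F.eB_on r)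
    (F.eH_on r) F.norm_uu.le a b α β hα hβ ha hb x
  have h1 : ∀ t : p × q, ‖∑ t' : p × q, F.SLev r (a t.1 t'.1) (b t.2 t'.2) (x t')‖ ^ 2
      = wt r ^ 2 * ‖∑ t' : p × q,
        Phi (F.eA r) (F.eB r) (F.eH r) F.uu (a t.1 t'.1) (b t.2 t'.2) (x t')‖ ^ 2 := by
    intro t
    simp_rw [SLev_apply]
    rw [← Finset.smul_sum, norm_smul, mul_pow, Complex.norm_real, Real.norm_eq_abs, sq_abs]
  simp_rw [h1]
  rw [← Finset.mul_sum, ← wt_sq, mul_assoc]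
  exact mul_le_mul_of_nonneg_left h (sq_nonneg _)

lemma norm_SLev_apply_le (r : ℕ) (a : G₁ →L[ℂ] G₁) (b : G₂ →L[ℂ] G₂) :
    ‖F.SLev r a b‖ ≤ (1 / 2) ^ r * ‖a‖ * ‖b‖ := by
  refine ContinuousLinearMap.opNorm_le_bound _ (by positivity) fun x => ?_
  have h := F.SLev_jcb r (p := Unit) (q := Unit) (fun _ _ => a) (fun _ _ => b) ‖a‖ ‖b‖
    (norm_nonneg _) (norm_nonneg _) ?_ ?_ (fun _ => x)
  · simp only [Fintype.sum_prod_type, Fintype.sum_unique] at h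
    refine le_of_sq_le_sq ?_ (by positivity)
    refine h.trans (le_of_eq ?_)
    ring
  · intro x
    rw [Fintype.sum_unique, Fintype.sum_unique, Fintype.sum_unique, ← mul_pow]
    refine pow_le_pow_left₀ (norm_nonneg _) ?_ 2
    refine (ContinuousLinearMap.le_opNorm _ _).trans ?_
    rw [LinearIsometryEquiv.norm_map]
  · intro x
    rw [Fintype.sum_unique, Fintype.sum_unique, Fintype.sum_unique, ← mul_pow]
    refine pow_le_pow_left₀ (norm_nonneg _) ?_ 2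
    refine (ContinuousLinearMap.le_opNorm _ _).trans ?_
    rw [LinearIsometryEquiv.norm_map]

end Fam

lemma summable_half : Summable fun r : ℕ => ((1 : ℝ) / 2) ^ r :=
  summable_geometric_of_lt_one (by norm_num) (by norm_num)

lemma exists_sum {A B C : Type*} [NormedAddCommGroup A] [NormedSpace ℂ A]
    [NormedAddCommGroup B] [NormedSpace ℂ B] [NormedAddCommGroup C] [NormedSpace ℂ C]
    [CompleteSpace C] (f : ℕ → A → B → C)
    (hadd₁ : ∀ r a a' b, f r (a + a') b = f r a b + f r a' b)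
    (hsmul₁ : ∀ r (c : ℂ) a b, f r (c • a) b = c • f r a b)
    (hadd₂ : ∀ r a b b', f r a (b + b') = f r a b + f r a b')
    (hsmul₂ : ∀ r (c : ℂ) a b, f r a (c • b) = c • f r a b)
    (hf : ∀ r a b, ‖f r a b‖ ≤ (1 / 2) ^ r * ‖a‖ * ‖b‖) :
    ∃ φ : A →ₗ[ℂ] B →ₗ[ℂ] C, ∀ a b, HasSum (fun r => f r a b) (φ a b) := by
  have hs : ∀ a b, Summable fun r => f r a b := fun a b =>
    Summable.of_norm_bounded ((summable_half.mul_right ‖a‖).mul_right ‖b‖) fun r => hf r a b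
  refine ⟨LinearMap.mk₂ ℂ (fun a b => ∑' r, f r a b) ?_ ?_ ?_ ?_, fun a b => (hs a b).hasSum⟩
  · intro a a' b
    simp_rw [hadd₁]
    exact (hs a b).tsum_add (hs a' b)
  · intro c a b
    simp_rw [hsmul₁]
    exact (hs a b).tsum_const_smul c
  · intro a b b'
    simp_rw [hadd₂]
    exact (hs a b).tsum_add (hs a b')
  · intro c a b
    simp_rw [hsmul₂]
    exact (hs a b).tsum_const_smul c

namespace Fam

variable (F : Fam G₁ G₂ H)

lemma exists_phi : ∃ φ : (G₁ →L[ℂ] G₁) →ₗ[ℂ] (G₂ →L[ℂ] G₂) →ₗ[ℂ] (H →L[ℂ] H),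
    ∀ a b, HasSum (fun r => F.SLev r a b) (φ a b) := by
  refine exists_sum (fun r a b => F.SLev r a b) ?_ ?_ ?_ ?_ ?_
  · intro r a a' b
    simp
  · intro r c a b
    simp
  · intro r a b b'
    simp
  · intro r c a b
    simp
  · exact F.norm_SLev_apply_le

/-- The bilinear map. -/
noncomputable def phi : (G₁ →L[ℂ] G₁) →ₗ[ℂ] (G₂ →L[ℂ] G₂) →ₗ[ℂ] (H →L[ℂ] H) :=
  F.exists_phi.choose

lemma hasSum_phi (a : G₁ →L[ℂ] G₁) (b : G₂ →L[ℂ] G₂) (x : H) :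
    HasSum (fun r => F.SLev r a b x) (F.phi a b x) := by
  have h0 : HasSum (fun r => F.SLev r a b) (F.phi a b) := F.exists_phi.choose_spec a b
  generalize F.phi a b = T at h0
  have h1 : ∀ (f : ℕ → (H →L[ℂ] H)), HasSum f T → HasSum (fun r => f r x) (T x) := by
    intro f hf
    have h2 := (ContinuousLinearMap.apply ℂ H x).hasSum hf
    exact h2
  exact h1 _ h0

/-- The map is jointly completely bounded. -/
theorem phi_jcb {p q : Type} [Fintype p] [Fintype q]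
    (a : p → p → (G₁ →L[ℂ] G₁)) (b : q → q → (G₂ →L[ℂ] G₂)) (α β : ℝ) (hα : 0 ≤ α) (hβ : 0 ≤ β)
    (ha : ∀ x : p → G₁, ∑ i, ‖∑ j, (ContinuousLinearMap.adjoint (a j i)) (x j)‖ ^ 2
      ≤ α ^ 2 * ∑ j, ‖x j‖ ^ 2)
    (hb : ∀ x : q → G₂, ∑ i, ‖∑ j, (ContinuousLinearMap.adjoint (b j i)) (x j)‖ ^ 2
      ≤ β ^ 2 * ∑ j, ‖x j‖ ^ 2) (x : p × q → H) :
    ∑ t : p × q, ‖∑ t' : p × q, F.phi (a t.1 t'.1) (b t.2 t'.2) (x t')‖ ^ 2
      ≤ (2 * α * β) ^ 2 * ∑ t, ‖x t‖ ^ 2 := by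
  have h0 : HasSum (fun r => (fun t : p × q => ∑ t' : p × q, F.SLev r (a t.1 t'.1) (b t.2 t'.2)
      (x t'))) (fun t => ∑ t' : p × q, F.phi (a t.1 t'.1) (b t.2 t'.2) (x t')) :=
    Pi.hasSum.mpr fun t => hasSum_sum fun t' _ => F.hasSum_phi _ _ _
  have h1 : HasSum (fun r => (WithLp.toLp 2 (fun t : p × q => ∑ t' : p × q,
      F.SLev r (a t.1 t'.1) (b t.2 t'.2) (x t')) : PiLp 2 (fun _ : p × q => H)))
      (WithLp.toLp 2 (fun t => ∑ t' : p × q, F.phi (a t.1 t'.1) (b t.2 t'.2) (x t'))) :=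
    ((PiLp.continuousLinearEquiv 2 ℂ (fun _ : p × q => H)).symm :
      (p × q → H) →L[ℂ] PiLp 2 (fun _ : p × q => H)).hasSum h0
  set S : ℝ := ∑ t, ‖x t‖ ^ 2 with hS
  have hS0 : 0 ≤ S := Finset.sum_nonneg fun _ _ => sq_nonneg _
  have h2 : HasSum (fun r : ℕ => ((1 : ℝ) / 2) ^ r * (α * β * √S)) (2 * (α * β * √S)) := by
    refine HasSum.mul_right _ ?_
    exact hasSum_geometric_two
  have h3 := h1.norm_le_of_bounded h2 (fun r => by
    refine le_of_sq_le_sq ?_ (by positivity)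
    rw [PiLp.norm_sq_eq_of_L2]
    refine (F.SLev_jcb r a b α β hα hβ ha hb x).trans (le_of_eq ?_)
    rw [mul_pow (((1 : ℝ) / 2) ^ r), mul_pow (α * β) (√S), Real.sq_sqrt hS0])
  have h4 := pow_le_pow_left₀ (norm_nonneg _) h3 2
  rw [PiLp.norm_sq_eq_of_L2] at h4
  refine h4.trans (le_of_eq ?_)
  rw [mul_pow 2, mul_pow (α * β) (√S), Real.sq_sqrt hS0]
  ring

end Fam

end Pool.Agent.TH252.JCB
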