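import Pool.Agent.TH252.JCB.Glue

/-!
# The bilinear map has no decomposition
-/

set_option autoImplicit false
set_option linter.unusedSectionVars false
open scoped CStarMatrix InnerProductSpace ComplexConjugate
open Finset

namespace Pool.Agent.TH252.JCB

variable {G₁ G₂ G H : Type*} [NormedAddCommGroup G₁] [InnerProductSpace ℂ G₁] [CompleteSpace G₁]
  [NormedAddCommGroup G₂] [InnerProductSpace ℂ G₂] [CompleteSpace G₂]
  [NormedAddCommGroup G] [InnerProductSpace ℂ G] [CompleteSpace G]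
  [NormedAddCommGroup H] [InnerProductSpace ℂ H] [CompleteSpace H]

namespace Fam

variable (F : Fam G₁ G₂ H)

/-- Test operator on the first space. -/
noncomputable def tA (r : ℕ) (k : Fin (sz r)) (P : Fin (sz r) → Fin (sz r)) : G₁ →L[ℂ] G₁ :=
  ro (F.eA r (k, 0)) (F.eA r (k, P k))

/-- Test operator on the second space. -/
noncomputable def tB (r : ℕ) (k : Fin (sz r)) (P : Fin (sz r) → Fin (sz r)) : G₂ →L[ℂ] G₂ :=
  ro (F.eB r (k, 0)) (F.eB r (k, cut k P))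

lemma SLev_other {r r' : ℕ} (h : r' ≠ r) (k : Fin (sz r)) (P : Fin (sz r) → Fin (sz r)) :
    F.SLev r' (F.tA r k P) (F.tB r k P) F.uu = 0 := by
  rw [SLev_apply, Phi_apply]
  simp only [tA, ro_apply, inner_smul_right, F.eA_orth h, mul_zero, zero_mul,
    Finset.sum_const_zero, zero_smul, smul_zero]

lemma phi_test (r : ℕ) (k : Fin (sz r)) (P : Fin (sz r) → Fin (sz r)) :
    F.phi (F.tA r k P) (F.tB r k P) F.uu = F.SLev r (F.tA r k P) (F.tB r k P) F.uu :=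
  (F.hasSum_phi _ _ _).unique (hasSum_single r fun _ h => F.SLev_other h k P)

lemma inner_test (r : ℕ) (k : Fin (sz r)) (P : Fin (sz r) → Fin (sz r)) :
    ⟪F.eH r P, F.phi (F.tA r k P) (F.tB r k P) F.uu⟫_ℂ = wt r := by
  rw [phi_test, SLev_apply, Phi_apply, inner_smul_right,
    (F.eH_on r).inner_right_fintype]
  have h1 : ∑ k' : Fin (sz r), ⟪F.eA r (k', 0), F.tA r k P (F.eA r (k', P k'))⟫_ℂ
      * ⟪F.eB r (k', 0), F.tB r k P (F.eB r (k', cut k' P))⟫_ℂ * ⟪F.uu, F.uu⟫_ℂ = 1 := by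
    rw [Finset.sum_eq_single k]
    · have e1 : ⟪F.eA r (k, 0), F.tA r k P (F.eA r (k, P k))⟫_ℂ = 1 := by
        rw [tA, ro_apply, inner_smul_right, inner_self_eq_norm_sq_to_K,
          inner_self_eq_norm_sq_to_K, (F.eA_on r).1, (F.eA_on r).1]
        simp
      have e2 : ⟪F.eB r (k, 0), F.tB r k P (F.eB r (k, cut k P))⟫_ℂ = 1 := by
        rw [tB, ro_apply, inner_smul_right, inner_self_eq_norm_sq_to_K,
          inner_self_eq_norm_sq_to_K, (F.eB_on r).1, (F.eB_on r).1]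
        simp
      rw [e1, e2, inner_self_eq_norm_sq_to_K, F.norm_uu]
      simp
    · intro k' _ hk'
      have e1 : ⟪F.eA r (k, P k), F.eA r (k', P k')⟫_ℂ = 0 := by
        refine (F.eA_on r).2 ?_
        intro h
        exact hk' (Prod.ext_iff.mp h).1.symm
      rw [tA, ro_apply, e1]
      simp
    · simp
  rw [h1, mul_one]

lemma norm_test (r : ℕ) (P : Fin (sz r) → Fin (sz r)) :
    sz r * wt r ≤ ‖∑ k, F.phi (F.tA r k P) (F.tB r k P) F.uu‖ := by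
  have h1 : ⟪F.eH r P, ∑ k, F.phi (F.tA r k P) (F.tB r k P) F.uu⟫_ℂ = ((sz r * wt r : ℝ) : ℂ) := by
    rw [inner_sum]
    simp_rw [inner_test]
    simp
  have h2 := norm_inner_le_norm (𝕜 := ℂ) (F.eH r P)
    (∑ k, F.phi (F.tA r k P) (F.tB r k P) F.uu)
  rw [h1, (F.eH_on r).1, one_mul, Complex.norm_real, Real.norm_eq_abs] at h2
  exact (le_abs_self _).trans h2

lemma total_test (r : ℕ) : (4 : ℝ) ^ r / 2
    ≤ ∑ P, ‖∑ k, F.phi (F.tA r k P) (F.tB r k P) F.uu‖ ^ 2 := by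
  have h1 : ∑ _P : Fin (sz r) → Fin (sz r), (sz r * wt r) ^ 2
      ≤ ∑ P, ‖∑ k, F.phi (F.tA r k P) (F.tB r k P) F.uu‖ ^ 2 :=
    Finset.sum_le_sum fun P _ =>
      pow_le_pow_left₀ (mul_nonneg (Nat.cast_nonneg _) (wt_nonneg r)) (F.norm_test r P) 2
  refine le_trans (le_of_eq ?_) h1
  rw [Finset.sum_const, Finset.card_univ, nsmul_eq_mul]
  have h2 : (Fintype.card (Fin (sz r) → Fin (sz r)) : ℝ) = (sz r : ℝ) ^ (sz r) := by
    simp
  rw [h2]
  have h3 : (sz r : ℝ) ^ sz r * (sz r * wt r) ^ 2 = (sz r : ℝ) / 2 * (wt r ^ 2 * K r) := by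
    unfold K
    ring
  rw [h3, wt_sq]
  have h4 : ((sz r : ℕ) : ℝ) = 16 ^ r := by simp
  rw [h4, ← pow_mul, mul_comm r 2, pow_mul, div_mul_eq_mul_div, ← mul_pow]
  norm_num

/-- There is no decomposition. -/
theorem no_decomp (φ₁ : (G₁ →L[ℂ] G₁) →ₗ[ℂ] (G₂ →L[ℂ] G₂) →ₗ[ℂ] (H →L[ℂ] H))
    (φ₂ : (G₂ →L[ℂ] G₂) →ₗ[ℂ] (G₁ →L[ℂ] G₁) →ₗ[ℂ] (H →L[ℂ] H)) (C₁ C₂ : ℝ)
    (h₁ : MultBdd φ₁ C₁) (h₂ : MultBdd φ₂ C₂)
    (h : ∀ a b, F.phi a b = φ₁ a b + φ₂ b a) : False := by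
  have key : ∀ r : ℕ, (4 : ℝ) ^ r / 2 ≤ 2 * C₁ ^ 2 + 2 * C₂ ^ 2 := by
    intro r
    refine (F.total_test r).trans ?_
    have e0 : Orthonormal ℂ fun k : Fin (sz r) => F.eA r (k, 0) :=
      (F.eA_on r).comp (fun k => (k, 0)) fun i j h => (Prod.ext_iff.mp h).1
    have f0 : Orthonormal ℂ fun k : Fin (sz r) => F.eB r (k, 0) :=
      (F.eB_on r).comp (fun k => (k, 0)) fun i j h => (Prod.ext_iff.mp h).1
    have hinj : ∀ k : Fin (sz r), Function.Injective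
        fun P : Fin (sz r) → Fin (sz r) => (P k, cut k P) := by
      intro k P Q hPQ
      obtain ⟨h1, h2⟩ := Prod.ext_iff.mp hPQ
      funext j
      by_cases hj : j = k
      · subst hj
        exact h1
      · have := congrFun h2 j
        simpa [cut, Function.update_of_ne hj] using this
    have hinj' : ∀ k : Fin (sz r), Function.Injective
        fun P : Fin (sz r) → Fin (sz r) => (cut k P, P k) := by
      intro k P Q hPQ
      obtain ⟨h1, h2⟩ := Prod.ext_iff.mp hPQ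
      exact hinj k (Prod.ext h2 h1)
    have t1 := rank_test h₁ (fun k : Fin (sz r) => F.eA r (k, 0)) e0 (F.eA r) (F.eA_on r)
      (fun k => F.eB r (k, 0)) f0 (F.eB r) (F.eB_on r) (fun k P => P k) (fun k P => cut k P)
      hinj F.uu
    have t2 := rank_test h₂ (fun k : Fin (sz r) => F.eB r (k, 0)) f0 (F.eB r) (F.eB_on r)
      (fun k => F.eA r (k, 0)) e0 (F.eA r) (F.eA_on r) (fun k P => cut k P) (fun k P => P k)
      hinj' F.uu
    rw [F.norm_uu, one_pow, mul_one] at t1 t2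
    calc ∑ P, ‖∑ k, F.phi (F.tA r k P) (F.tB r k P) F.uu‖ ^ 2
        ≤ ∑ P, (2 * ‖∑ k, φ₁ (F.tA r k P) (F.tB r k P) F.uu‖ ^ 2
          + 2 * ‖∑ k, φ₂ (F.tB r k P) (F.tA r k P) F.uu‖ ^ 2) := by
          refine Finset.sum_le_sum fun P _ => ?_
          have h3 : ∑ k, F.phi (F.tA r k P) (F.tB r k P) F.uu
              = ∑ k, φ₁ (F.tA r k P) (F.tB r k P) F.uu
                + ∑ k, φ₂ (F.tB r k P) (F.tA r k P) F.uu := by
            rw [← Finset.sum_add_distrib]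
            refine Finset.sum_congr rfl fun k _ => ?_
            rw [h]
            rfl
          rw [h3]
          have h4 := norm_add_le (∑ k, φ₁ (F.tA r k P) (F.tB r k P) F.uu)
            (∑ k, φ₂ (F.tB r k P) (F.tA r k P) F.uu)
          have h5 := norm_nonneg (∑ k, φ₁ (F.tA r k P) (F.tB r k P) F.uu
            + ∑ k, φ₂ (F.tB r k P) (F.tA r k P) F.uu)
          nlinarith [sq_nonneg (‖∑ k, φ₁ (F.tA r k P) (F.tB r k P) F.uu‖
            - ‖∑ k, φ₂ (F.tB r k P) (F.tA r k P) F.uu‖)]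
      _ = 2 * ∑ P, ‖∑ k, φ₁ (F.tA r k P) (F.tB r k P) F.uu‖ ^ 2
          + 2 * ∑ P, ‖∑ k, φ₂ (F.tB r k P) (F.tA r k P) F.uu‖ ^ 2 := by
          rw [Finset.sum_add_distrib, Finset.mul_sum, Finset.mul_sum]
      _ ≤ 2 * C₁ ^ 2 + 2 * C₂ ^ 2 := by
          have t1' : ∑ P, ‖∑ k, φ₁ (F.tA r k P) (F.tB r k P) F.uu‖ ^ 2 ≤ C₁ ^ 2 := t1
          have t2' : ∑ P, ‖∑ k, φ₂ (F.tB r k P) (F.tA r k P) F.uu‖ ^ 2 ≤ C₂ ^ 2 := t2
          linarith
  obtain ⟨r, hr⟩ := pow_unbounded_of_one_lt (2 * (2 * C₁ ^ 2 + 2 * C₂ ^ 2))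
    (by norm_num : (1 : ℝ) < 4)
  have := key r
  linarith

end Fam

end Pool.Agent.TH252.JCB
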