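import Pool.Agent.TH252.JCB.Mat

/-!
# The bilinear map built from `s` splittings of `n ^ s` indices
-/

set_option autoImplicit false
set_option linter.unusedSectionVars false
open scoped InnerProductSpace ComplexConjugate
open Finset

namespace Pool.Agent.TH252.JCB

variable {s n : ℕ} [NeZero n]
variable {G₁ G₂ G H : Type*} [NormedAddCommGroup G₁] [InnerProductSpace ℂ G₁] [CompleteSpace G₁]
  [NormedAddCommGroup G₂] [InnerProductSpace ℂ G₂] [CompleteSpace G₂]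
  [NormedAddCommGroup G] [InnerProductSpace ℂ G] [CompleteSpace G]
  [NormedAddCommGroup H] [InnerProductSpace ℂ H] [CompleteSpace H]

/-- Matrix coefficient functional. -/
noncomputable def cf (u v : G) : (G →L[ℂ] G) →L[ℂ] ℂ :=
  (innerSL ℂ u).comp (ContinuousLinearMap.apply ℂ G v)

@[simp] lemma cf_apply (u v : G) (a : G →L[ℂ] G) : cf u v a = ⟪u, a v⟫_ℂ := rfl

/-- The bilinear map. -/
noncomputable def Phi (e : Fin s × Fin n → G₁) (f : Fin s × (Fin s → Fin n) → G₂)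
    (g : (Fin s → Fin n) → H) (u : H) :
    (G₁ →L[ℂ] G₁) →L[ℂ] (G₂ →L[ℂ] G₂) →L[ℂ] (H →L[ℂ] H) :=
  ∑ P : Fin s → Fin n, ∑ k : Fin s, (cf (e (k, 0)) (e (k, P k))).smulRight
    ((cf (f (k, 0)) (f (k, cut k P))).smulRight ((innerSL ℂ u).smulRight (g P)))

lemma Phi_apply (e : Fin s × Fin n → G₁) (f : Fin s × (Fin s → Fin n) → G₂)
    (g : (Fin s → Fin n) → H) (u : H) (a : G₁ →L[ℂ] G₁) (b : G₂ →L[ℂ] G₂) (x : H) :
    Phi e f g u a b x = ∑ P : Fin s → Fin n, (∑ k : Fin s,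
      ⟪e (k, 0), a (e (k, P k))⟫_ℂ * ⟪f (k, 0), b (f (k, cut k P))⟫_ℂ * ⟪u, x⟫_ℂ) • g P := by
  simp only [Phi, _root_.sum_apply, ContinuousLinearMap.smulRight_apply,
    _root_.smul_apply, cf_apply, innerSL_apply_apply, Finset.sum_smul, smul_smul]

/-- Bessel-type estimate for the coefficient matrices. -/
lemma coef_le {ι : Type*} [Fintype ι] {p : Type} [Fintype p] (e₀ : G) (he₀ : ‖e₀‖ ≤ 1) (e : ι → G)
    (he : Orthonormal ℂ e) (a : p → p → (G →L[ℂ] G)) (α : ℝ)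
    (ha : ∀ x : p → G, ∑ i, ‖∑ j, (ContinuousLinearMap.adjoint (a j i)) (x j)‖ ^ 2
      ≤ α ^ 2 * ∑ j, ‖x j‖ ^ 2) (v : p → ℂ) :
    ∑ i, ∑ l, ‖∑ j, conj (⟪e₀, a j l (e i)⟫_ℂ) * v j‖ ^ 2 ≤ α ^ 2 * ∑ j, ‖v j‖ ^ 2 := by
  have h1 : ∀ i l, ∑ j, conj (⟪e₀, a j l (e i)⟫_ℂ) * v j
      = ⟪e i, ∑ j, (ContinuousLinearMap.adjoint (a j l)) (v j • e₀)⟫_ℂ := by
    intro i l
    rw [inner_sum]
    refine Finset.sum_congr rfl fun j _ => ?_
    rw [ContinuousLinearMap.adjoint_inner_right, inner_smul_right, inner_conj_symm, mul_comm]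
  simp_rw [h1]
  rw [Finset.sum_comm]
  calc ∑ l, ∑ i, ‖⟪e i, ∑ j, (ContinuousLinearMap.adjoint (a j l)) (v j • e₀)⟫_ℂ‖ ^ 2
      ≤ ∑ l, ‖∑ j, (ContinuousLinearMap.adjoint (a j l)) (v j • e₀)‖ ^ 2 :=
        Finset.sum_le_sum fun l _ => he.sum_inner_products_le _
    _ ≤ α ^ 2 * ∑ j, ‖v j • e₀‖ ^ 2 := ha _
    _ ≤ α ^ 2 * ∑ j, ‖v j‖ ^ 2 := by
        refine mul_le_mul_of_nonneg_left (Finset.sum_le_sum fun j _ => ?_) (sq_nonneg _)
        rw [norm_smul]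
        refine pow_le_pow_left₀ (by positivity) ?_ 2
        exact mul_le_of_le_one_right (norm_nonneg _) he₀

/-- Norm of a combination of orthonormal vectors. -/
lemma norm_sq_sum {ι : Type*} [Fintype ι] (g : ι → H) (hg : Orthonormal ℂ g) (c : ι → ℂ) :
    ‖∑ i, c i • g i‖ ^ 2 = ∑ i, ‖c i‖ ^ 2 := by
  rw [← inner_self_eq_norm_sq (𝕜 := ℂ), hg.inner_sum]
  simp only [map_sum]
  refine Finset.sum_congr rfl fun i _ => ?_
  rw [mul_comm, Complex.mul_conj]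
  simp [Complex.normSq_eq_norm_sq]
  norm_cast

/-- The bilinear map is jointly completely bounded with square constant `2 * s * n ^ s`. -/
theorem Phi_jcb (hsn : s ≤ n) (e : Fin s × Fin n → G₁) (f : Fin s × (Fin s → Fin n) → G₂)
    (g : (Fin s → Fin n) → H) (u : H) (he : Orthonormal ℂ e) (hf : Orthonormal ℂ f)
    (hg : Orthonormal ℂ g) (hu : ‖u‖ ≤ 1) {p q : Type} [Fintype p] [Fintype q]
    (a : p → p → (G₁ →L[ℂ] G₁)) (b : q → q → (G₂ →L[ℂ] G₂)) (α β : ℝ) (hα : 0 ≤ α) (hβ : 0 ≤ β)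
    (ha : ∀ x : p → G₁, ∑ i, ‖∑ j, (ContinuousLinearMap.adjoint (a j i)) (x j)‖ ^ 2
      ≤ α ^ 2 * ∑ j, ‖x j‖ ^ 2)
    (hb : ∀ x : q → G₂, ∑ i, ‖∑ j, (ContinuousLinearMap.adjoint (b j i)) (x j)‖ ^ 2
      ≤ β ^ 2 * ∑ j, ‖x j‖ ^ 2) (x : p × q → H) :
    ∑ t : p × q, ‖∑ t' : p × q, Phi e f g u (a t.1 t'.1) (b t.2 t'.2) (x t')‖ ^ 2
      ≤ (2 * s * n ^ s : ℝ) * ((α * β) ^ 2 * ∑ t, ‖x t‖ ^ 2) := by
  have h1 : ∀ t : p × q, ‖∑ t' : p × q, Phi e f g u (a t.1 t'.1) (b t.2 t'.2) (x t')‖ ^ 2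
      = ∑ P : Fin s → Fin n, ‖∑ k : Fin s, ∑ t' : p × q,
        ⟪e (k, 0), a t.1 t'.1 (e (k, P k))⟫_ℂ * ⟪f (k, 0), b t.2 t'.2 (f (k, cut k P))⟫_ℂ
          * ⟪u, x t'⟫_ℂ‖ ^ 2 := by
    intro t
    simp_rw [Phi_apply]
    rw [Finset.sum_comm]
    simp_rw [← Finset.sum_smul]
    rw [norm_sq_sum g hg]
    refine Finset.sum_congr rfl fun P _ => ?_
    rw [Finset.sum_comm]
  simp_rw [h1]
  rw [Finset.sum_comm]
  refine le_trans (mat_core hsn (fun k i j l => ⟪e (k, 0), a j l (e (k, i))⟫_ℂ)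
    (fun k Q j l => ⟪f (k, 0), b j l (f (k, Q))⟫_ℂ) α β hα hβ ?_ ?_ (fun t => ⟪u, x t⟫_ℂ)) ?_
  · intro k v
    refine coef_le _ (he.1 _).le (fun i => e (k, i)) ?_ a α ha v
    exact he.comp (fun i => (k, i)) (fun i j h => (Prod.ext_iff.mp h).2)
  · intro k v
    refine coef_le _ (hf.1 _).le (fun i => f (k, i)) ?_ b β hb v
    exact hf.comp (fun i => (k, i)) (fun i j h => (Prod.ext_iff.mp h).2)
  · refine mul_le_mul_of_nonneg_left (mul_le_mul_of_nonneg_left (Finset.sum_le_sum fun t _ => ?_)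
      (sq_nonneg _)) (by positivity)
    refine pow_le_pow_left₀ (norm_nonneg _) ?_ 2
    refine (norm_inner_le_norm _ _).trans ?_
    exact mul_le_of_le_one_left (norm_nonneg _) hu

end Pool.Agent.TH252.JCB
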