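import Pool.Agent.TH252.JCB.Core

/-!
# Data coming from scalar matrices acting on two tensor factors
-/

set_option autoImplicit false
set_option linter.unusedSectionVars false
open scoped InnerProductSpace ComplexConjugate
open Finset

namespace Pool.Agent.TH252.JCB

variable {s n : ℕ} [NeZero n] {p q : Type} [Fintype p] [Fintype q]

/-- Commuting data given by matrices acting on the two factors of `ℂ^p ⊗ ℂ^q`. -/
noncomputable def matData (M : Fin s → Fin n → p → p → ℂ)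
    (N : Fin s → (Fin s → Fin n) → q → q → ℂ) (α β : ℝ) (hα : 0 ≤ α) (hβ : 0 ≤ β)
    (hM : ∀ k (v : p → ℂ), ∑ i, ∑ l, ‖∑ j, conj (M k i j l) * v j‖ ^ 2
      ≤ α ^ 2 * ∑ j, ‖v j‖ ^ 2)
    (hN : ∀ k (v : q → ℂ), ∑ Q, ∑ l, ‖∑ j, conj (N k Q j l) * v j‖ ^ 2
      ≤ β ^ 2 * ∑ j, ‖v j‖ ^ 2) :
    Data s n (EuclideanSpace ℂ (p × q)) where
  A k i v := WithLp.toLp 2 fun t => ∑ l, M k i t.1 l * v (l, t.2)
  A' k i v := WithLp.toLp 2 fun t => ∑ j, conj (M k i j t.1) * v (j, t.2)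
  B k Q v := WithLp.toLp 2 fun t => ∑ l, N k Q t.2 l * v (t.1, l)
  B' k Q v := WithLp.toLp 2 fun t => ∑ j, conj (N k Q j t.2) * v (t.1, j)
  α := α
  β := β
  α_nonneg := hα
  β_nonneg := hβ
  adjA k i u v := by
    simp only [PiLp.inner_apply, RCLike.inner_apply, map_sum, map_mul, Complex.conj_conj,
      Fintype.sum_prod_type, Finset.mul_sum, Finset.sum_mul]
    rw [Finset.sum_comm]
    rw [Finset.sum_comm (s := (Finset.univ : Finset p))]
    refine Finset.sum_congr rfl fun j' _ => ?_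
    rw [Finset.sum_comm]
    refine Finset.sum_congr rfl fun j _ => Finset.sum_congr rfl fun l _ => ?_
    ring
  adjB k Q u v := by
    simp only [PiLp.inner_apply, RCLike.inner_apply, map_sum, map_mul, Complex.conj_conj,
      Fintype.sum_prod_type, Finset.mul_sum, Finset.sum_mul]
    refine Finset.sum_congr rfl fun j' _ => ?_
    rw [Finset.sum_comm]
    refine Finset.sum_congr rfl fun j _ => Finset.sum_congr rfl fun l _ => ?_
    ring
  comm k i l Q v := by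
    ext t
    simp only [Finset.mul_sum]
    rw [Finset.sum_comm]
    refine Finset.sum_congr rfl fun j _ => Finset.sum_congr rfl fun l _ => ?_
    ring
  comm' k i l Q v := by
    ext t
    simp only [Finset.mul_sum]
    rw [Finset.sum_comm]
    refine Finset.sum_congr rfl fun j _ => Finset.sum_congr rfl fun l _ => ?_
    ring
  hA k v := by
    simp only [EuclideanSpace.norm_sq_eq, mul_pow, Fintype.sum_prod_type]
    have h1 : ∀ j' : q, ∑ i, ∑ l, ‖∑ j, conj (M k i j l) * v (j, j')‖ ^ 2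
      ≤ α ^ 2 * ∑ j, ‖v (j, j')‖ ^ 2 := fun j' => hM k fun j => v (j, j')
    calc _ = ∑ j' : q, ∑ i, ∑ l, ‖∑ j, conj (M k i j l) * v (j, j')‖ ^ 2 := by
          rw [Finset.sum_comm (s := (Finset.univ : Finset q))]
          refine Finset.sum_congr rfl fun i _ => ?_
          rw [Finset.sum_comm]
      _ ≤ ∑ j' : q, α ^ 2 * ∑ j, ‖v (j, j')‖ ^ 2 := Finset.sum_le_sum fun j' _ => h1 j'
      _ = _ := by
          rw [← Finset.mul_sum, Finset.sum_comm]
  hB k v := by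
    simp only [EuclideanSpace.norm_sq_eq, mul_pow, Fintype.sum_prod_type]
    have h1 : ∀ j' : p, ∑ i, ∑ l, ‖∑ j, conj (N k i j l) * v (j', j)‖ ^ 2
      ≤ β ^ 2 * ∑ j, ‖v (j', j)‖ ^ 2 := fun j' => hN k fun j => v (j', j)
    calc _ = ∑ j' : p, ∑ i, ∑ l, ‖∑ j, conj (N k i j l) * v (j', j)‖ ^ 2 := by
          rw [Finset.sum_comm]
      _ ≤ ∑ j' : p, β ^ 2 * ∑ j, ‖v (j', j)‖ ^ 2 := Finset.sum_le_sum fun j' _ => h1 j'
      _ = _ := by
          rw [← Finset.mul_sum]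

/-- The averaging estimate for matrices. -/
theorem mat_core (hsn : s ≤ n) (M : Fin s → Fin n → p → p → ℂ)
    (N : Fin s → (Fin s → Fin n) → q → q → ℂ) (α β : ℝ) (hα : 0 ≤ α) (hβ : 0 ≤ β)
    (hM : ∀ k (v : p → ℂ), ∑ i, ∑ l, ‖∑ j, conj (M k i j l) * v j‖ ^ 2
      ≤ α ^ 2 * ∑ j, ‖v j‖ ^ 2)
    (hN : ∀ k (v : q → ℂ), ∑ Q, ∑ l, ‖∑ j, conj (N k Q j l) * v j‖ ^ 2
      ≤ β ^ 2 * ∑ j, ‖v j‖ ^ 2) (y : p × q → ℂ) :
    ∑ P : Fin s → Fin n, ∑ t : p × q,
        ‖∑ k, ∑ t' : p × q, M k (P k) t.1 t'.1 * N k (cut k P) t.2 t'.2 * y t'‖ ^ 2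
      ≤ (2 * s * n ^ s : ℝ) * ((α * β) ^ 2 * ∑ t, ‖y t‖ ^ 2) := by
  have h := (matData M N α β hα hβ hM hN).core hsn (WithLp.toLp 2 y)
  rw [mul_pow, EuclideanSpace.norm_sq_eq (WithLp.toLp 2 y)] at h
  refine le_trans (le_of_eq ?_) h
  refine Finset.sum_congr rfl fun P _ => ?_
  rw [EuclideanSpace.norm_sq_eq]
  refine Finset.sum_congr rfl fun t _ => ?_
  congr 2
  simp only [matData, WithLp.ofLp_sum, Finset.sum_apply]
  refine Finset.sum_congr rfl fun k _ => ?_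
  simp only [Fintype.sum_prod_type, Finset.mul_sum]
  refine Finset.sum_congr rfl fun j _ => Finset.sum_congr rfl fun l _ => ?_
  ring

end Pool.Agent.TH252.JCB
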