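import Pool.Agent.TH252.JCB.Test
import Pool.Agent.TH252.JCB.Map

/-!
# Testing on rank one operators
-/

set_option autoImplicit false
set_option linter.unusedSectionVars false
open scoped CStarMatrix InnerProductSpace ComplexConjugate
open Finset

namespace Pool.Agent.TH252.JCB

variable {G₁ G₂ G H : Type*} [NormedAddCommGroup G₁] [InnerProductSpace ℂ G₁] [CompleteSpace G₁]
  [NormedAddCommGroup G₂] [InnerProductSpace ℂ G₂] [CompleteSpace G₂]
  [NormedAddCommGroup G] [InnerProductSpace ℂ G] [CompleteSpace G]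
  [NormedAddCommGroup H] [InnerProductSpace ℂ H] [CompleteSpace H]

/-- The rank one operator sending `x` to `⟪v, x⟫ u`. -/
noncomputable def ro (u v : G) : G →L[ℂ] G := (innerSL ℂ v).smulRight u

@[simp] lemma ro_apply (u v x : G) : ro u v x = ⟪v, x⟫_ℂ • u := rfl

/-- The rank one test. -/
theorem rank_test {K L L' W : Type} [Fintype K] [Fintype L] [Fintype L'] [Fintype W]
    {ψ : (G₁ →L[ℂ] G₁) →ₗ[ℂ] (G₂ →L[ℂ] G₂) →ₗ[ℂ] (H →L[ℂ] H)} {C : ℝ} (hψ : MultBdd ψ C)
    (e₀ : K → G₁) (he₀ : Orthonormal ℂ e₀) (e : K × L → G₁) (he : Orthonormal ℂ e)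
    (f₀ : K → G₂) (hf₀ : Orthonormal ℂ f₀) (f : K × L' → G₂) (hf : Orthonormal ℂ f)
    (pk : K → W → L) (qk : K → W → L')
    (hinj : ∀ k, Function.Injective fun P => (pk k P, qk k P)) (h : H) :
    ∑ P, ‖∑ k, ψ (ro (e₀ k) (e (k, pk k P))) (ro (f₀ k) (f (k, qk k P))) h‖ ^ 2
      ≤ C ^ 2 * ‖h‖ ^ 2 := by
  classical
  have key := rect (I := W) (J := K × L') hψ
    (fun P t => if qk t.1 P = t.2 then ro (e₀ t.1) (e (t.1, pk t.1 P)) else 0)
    (fun t => ro (f₀ t.1) (f t)) ?_ ?_ h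
  · refine le_trans (le_of_eq ?_) key
    refine Finset.sum_congr rfl fun P _ => ?_
    congr 2
    rw [Fintype.sum_prod_type]
    refine Finset.sum_congr rfl fun k _ => ?_
    rw [Finset.sum_eq_single (qk k P)]
    · simp
    · intro Q _ hQ
      simp [Ne.symm hQ]
    · simp
  · intro x
    have h1 : ∀ P, ‖∑ t : K × L', (if qk t.1 P = t.2 then ro (e₀ t.1) (e (t.1, pk t.1 P)) else 0)
        (x t)‖ ^ 2 = ∑ k, ‖⟪e (k, pk k P), x (k, qk k P)⟫_ℂ‖ ^ 2 := by
      intro P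
      rw [← norm_sq_sum e₀ he₀]
      congr 2
      rw [Fintype.sum_prod_type]
      refine Finset.sum_congr rfl fun k _ => ?_
      rw [Finset.sum_eq_single (qk k P)]
      · simp
      · intro Q _ hQ
        simp [Ne.symm hQ]
      · simp
    simp_rw [h1]
    rw [Finset.sum_comm, Fintype.sum_prod_type]
    refine Finset.sum_le_sum fun k _ => ?_
    calc ∑ P, ‖⟪e (k, pk k P), x (k, qk k P)⟫_ℂ‖ ^ 2
        = ∑ t ∈ Finset.univ.image (fun P => (pk k P, qk k P)),
            ‖⟪e (k, t.1), x (k, t.2)⟫_ℂ‖ ^ 2 := by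
          rw [Finset.sum_image (fun i _ j _ h => hinj k h)]
      _ ≤ ∑ t : L × L', ‖⟪e (k, t.1), x (k, t.2)⟫_ℂ‖ ^ 2 :=
          Finset.sum_le_sum_of_subset_of_nonneg (Finset.subset_univ _) (fun _ _ _ => sq_nonneg _)
      _ = ∑ Q, ∑ i, ‖⟪e (k, i), x (k, Q)⟫_ℂ‖ ^ 2 := by
          rw [Fintype.sum_prod_type, Finset.sum_comm]
      _ ≤ ∑ Q, ‖x (k, Q)‖ ^ 2 := by
          refine Finset.sum_le_sum fun Q _ => ?_
          exact (he.comp (fun i => (k, i))
            (fun i j h => (Prod.ext_iff.mp h).2)).sum_inner_products_le _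
  · intro y
    refine le_trans (Finset.sum_le_sum fun t _ => ?_) (hf.sum_inner_products_le (x := y)
      (s := Finset.univ))
    rw [ro_apply, norm_smul, hf₀.1, mul_one]

end Pool.Agent.TH252.JCB
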