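import Pool.Agent.TH252.JCB.Act

/-!
# Testing a multiplicatively bounded map on rectangular matrices
-/

set_option autoImplicit false
set_option linter.unusedSectionVars false
open scoped CStarMatrix InnerProductSpace ComplexConjugate
open Finset

namespace Pool.Agent.TH252.JCB

variable {G₁ G₂ G H : Type*} [NormedAddCommGroup G₁] [InnerProductSpace ℂ G₁] [CompleteSpace G₁]
  [NormedAddCommGroup G₂] [InnerProductSpace ℂ G₂] [CompleteSpace G₂]
  [NormedAddCommGroup G] [InnerProductSpace ℂ G] [CompleteSpace G]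
  [NormedAddCommGroup H] [InnerProductSpace ℂ H] [CompleteSpace H]

/-- Multiplicative boundedness of a bilinear map with a constant. -/
def MultBdd (ψ : (G₁ →L[ℂ] G₁) →ₗ[ℂ] (G₂ →L[ℂ] G₂) →ₗ[ℂ] (H →L[ℂ] H)) (C : ℝ) : Prop :=
  ∀ (n : ℕ) (a : CStarMatrix (Fin n) (Fin n) (G₁ →L[ℂ] G₁))
    (b : CStarMatrix (Fin n) (Fin n) (G₂ →L[ℂ] G₂)) (x : Fin n → H),
    ∑ i : Fin n, ‖∑ j : Fin n, ∑ k : Fin n, ψ (a i k) (b k j) (x j)‖ ^ 2
      ≤ (C * ‖a‖ * ‖b‖) ^ 2 * ∑ j : Fin n, ‖x j‖ ^ 2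

/-- Padding a rectangular matrix by zeros. -/
noncomputable def padA {I J : Type} (a : I → J → (G →L[ℂ] G)) :
    Option (I ⊕ J) → Option (I ⊕ J) → (G →L[ℂ] G)
  | some (Sum.inl i), some (Sum.inr j) => a i j
  | _, _ => 0

/-- Padding a column by zeros. -/
noncomputable def padB {I J : Type} (b : J → (G →L[ℂ] G)) :
    Option (I ⊕ J) → Option (I ⊕ J) → (G →L[ℂ] G)
  | some (Sum.inr j), none => b j
  | _, _ => 0

lemma norm_le_one_of {T : Type} [Fintype T] {N : ℕ} (ε : T ≃ Fin N) (A : T → T → (G →L[ℂ] G))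
    (h : ∀ x : T → G, ∑ i, ‖∑ j, A i j (x j)‖ ^ 2 ≤ ∑ j, ‖x j‖ ^ 2) :
    ‖(CStarMatrix.ofMatrix (Matrix.of fun u v => A (ε.symm u) (ε.symm v)) :
      CStarMatrix (Fin N) (Fin N) (G →L[ℂ] G))‖ ≤ 1 := by
  refine norm_le_one _ fun x => ?_
  simp only [CStarMatrix.ofMatrix_apply, Matrix.of_apply]
  simp_rw [← Equiv.sum_comp ε]
  simpa using h (fun t => x (ε t))

/-- A multiplicatively bounded map evaluated on a rectangular contraction and a column
contraction. -/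
theorem rect {I J : Type} [Fintype I] [Fintype J]
    {ψ : (G₁ →L[ℂ] G₁) →ₗ[ℂ] (G₂ →L[ℂ] G₂) →ₗ[ℂ] (H →L[ℂ] H)} {C : ℝ} (hψ : MultBdd ψ C)
    (a : I → J → (G₁ →L[ℂ] G₁)) (b : J → (G₂ →L[ℂ] G₂))
    (ha : ∀ x : J → G₁, ∑ i, ‖∑ j, a i j (x j)‖ ^ 2 ≤ ∑ j, ‖x j‖ ^ 2)
    (hb : ∀ y : G₂, ∑ j, ‖b j y‖ ^ 2 ≤ ‖y‖ ^ 2) (h : H) :
    ∑ i, ‖∑ j, ψ (a i j) (b j) h‖ ^ 2 ≤ C ^ 2 * ‖h‖ ^ 2 := by
  classical
  set N := Fintype.card (Option (I ⊕ J)) with hN
  set ε : Option (I ⊕ J) ≃ Fin N := Fintype.equivFin _ with hε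
  have hA := norm_le_one_of ε (padA a) (by
    intro x
    simp only [Fintype.sum_option, Fintype.sum_sum_type, padA]
    simp only [_root_.zero_apply, Finset.sum_const_zero, zero_add, add_zero, norm_zero,
      ne_eq, OfNat.ofNat_ne_zero, not_false_eq_true, zero_pow]
    refine (ha _).trans ?_
    have h1 : 0 ≤ ∑ i : I, ‖x (some (Sum.inl i))‖ ^ 2 := Finset.sum_nonneg fun _ _ => sq_nonneg _
    have h2 : 0 ≤ ‖x none‖ ^ 2 := sq_nonneg _
    linarith)
  have hB := norm_le_one_of ε (padB (I := I) b) (by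
    intro x
    simp only [Fintype.sum_option, Fintype.sum_sum_type, padB]
    simp only [_root_.zero_apply, Finset.sum_const_zero, zero_add, add_zero, norm_zero,
      ne_eq, OfNat.ofNat_ne_zero, not_false_eq_true, zero_pow]
    refine (hb _).trans ?_
    have h1 : 0 ≤ ∑ i : I, ‖x (some (Sum.inl i))‖ ^ 2 := Finset.sum_nonneg fun _ _ => sq_nonneg _
    have h2 : 0 ≤ ∑ i : J, ‖x (some (Sum.inr i))‖ ^ 2 := Finset.sum_nonneg fun _ _ => sq_nonneg _
    linarith)
  have key := hψ N (CStarMatrix.ofMatrix (Matrix.of fun u v => padA a (ε.symm u) (ε.symm v)))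
    (CStarMatrix.ofMatrix (Matrix.of fun u v => padB b (ε.symm u) (ε.symm v)))
    (fun v => if ε.symm v = none then h else 0)
  simp only [CStarMatrix.ofMatrix_apply, Matrix.of_apply] at key
  simp_rw [← Equiv.sum_comp ε, Equiv.symm_apply_apply] at key
  simp only [Fintype.sum_option, Fintype.sum_sum_type, padA, padB] at key
  simp only [map_zero, _root_.zero_apply, Finset.sum_const_zero, zero_add, add_zero, norm_zero,
      ne_eq, OfNat.ofNat_ne_zero, not_false_eq_true, zero_pow, if_true, reduceCtorEq, if_false,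
      LinearMap.zero_apply] at key
  refine le_trans (le_of_eq ?_) (key.trans ?_)
  · rfl
  · refine mul_le_mul_of_nonneg_right ?_ (sq_nonneg _)
    rw [mul_pow, mul_pow]
    have h1 := pow_le_pow_left₀ (norm_nonneg _) hA 2
    have h2 := pow_le_pow_left₀ (norm_nonneg _) hB 2
    rw [one_pow] at h1 h2
    refine (mul_le_of_le_one_right (by positivity) h2).trans ?_
    exact mul_le_of_le_one_right (sq_nonneg _) h1

end Pool.Agent.TH252.JCB
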